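import Pool.Agent.Helper4.TL.StD

/-!
# Project TL, module LIFP: lifting solutions of the relations to the integers
-/

set_option autoImplicit false

namespace Pool.Agent.Helper83.TL.LifpM

open Pool.Agent.Helper14.W5 (tr5 Fn5 S5Trm)
open Pool.Agent.Helper4.TL

private abbrev Pt (r s : ℕ) : Type := ZMod (5 ^ r) × ZMod (5 ^ s)

private def mu {r s : ℕ} (a b c d : ℤ) (p : Pt r s) : Pt r s :=
  tr5 a b c d (fun x y => ((x, y) : Pt r s)) p.1 p.2

private theorem mu_mul (hTrm : S5Trm) {r s : ℕ} {a b c d a' b' c' d' : ℤ} (h1 : ¬ 5 ∣ a)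
    (h2 : ¬ 5 ∣ d) (h3 : ¬ 5 ∣ a') (h4 : ¬ 5 ∣ d') (p : Pt r s) :
    mu a' b' c' d' (mu a b c d p) =
      mu (a * a' + 5 * b * c') (a * b' + b * d') (c * a' + d * c') (5 * c * b' + d * d') p := by
  have h := congrFun (congrFun ((hTrm (Pt r s) r s (fun x y => (x, y))).1 a b c d a' b' c' d'
    h1 h2 h3 h4) p.1) p.2
  exact h

private theorem mu_one (hTrm : S5Trm) {r s : ℕ} (p : Pt r s) : mu 1 0 0 1 p = p := by
  have h := congrFun (congrFun (hTrm (Pt r s) r s (fun x y => (x, y))).2.1 p.1) p.2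
  exact h

private theorem mu_neg_one (hTrm : S5Trm) {r s : ℕ} (p : Pt r s) : mu (-1) 0 0 (-1) p = p := by
  have h := congrFun (congrFun ((hTrm (Pt r s) r s (fun x y => (x, y))).2.2 (-1) 1 0 0 1
    (by norm_num) (by norm_num) (by norm_num)) p.1) p.2
  have h2 : mu (-1) 0 0 (-1) p = mu 1 0 0 1 p := by
    unfold mu
    norm_num at h ⊢
    exact h
  rw [h2, mu_one hTrm]

/-- `T`, `τ2`, `τ3` on points. -/
private def mT {r s : ℕ} : Pt r s → Pt r s := mu 1 1 0 1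
private def m2 {r s : ℕ} : Pt r s → Pt r s := mu 2 (-1) 1 (-2)
private def m3 {r s : ℕ} : Pt r s → Pt r s := mu 3 (-2) 1 (-3)

private theorem m22 (hTrm : S5Trm) {r s : ℕ} (p : Pt r s) : m2 (m2 p) = p := by
  unfold m2
  rw [mu_mul hTrm (by norm_num) (by norm_num) (by norm_num) (by norm_num)]
  norm_num
  exact mu_neg_one hTrm p

private theorem m33 (hTrm : S5Trm) {r s : ℕ} (p : Pt r s) : m3 (m3 p) = p := by
  unfold m3
  rw [mu_mul hTrm (by norm_num) (by norm_num) (by norm_num) (by norm_num)]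
  norm_num
  exact mu_neg_one hTrm p

private theorem mT3 (hTrm : S5Trm) {r s : ℕ} (p : Pt r s) : mT (m3 p) = mu 3 1 1 2 p := by
  unfold mT m3
  rw [mu_mul hTrm (by norm_num) (by norm_num) (by norm_num) (by norm_num)]
  norm_num

private theorem mT_iter (hTrm : S5Trm) {r s : ℕ} (p : Pt r s) (i : ℕ) :
    mT^[i] p = mu 1 i 0 1 p := by
  induction i with
  | zero =>
    rw [Function.iterate_zero, id_eq, Nat.cast_zero]
    exact (mu_one hTrm p).symm
  | succ i ih =>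
    rw [Function.iterate_succ_apply', ih]
    unfold mT
    rw [mu_mul hTrm (by norm_num) (by norm_num) (by norm_num) (by norm_num)]
    congr 1
    push_cast
    ring

private theorem mT_per (hTrm : S5Trm) {r s : ℕ} (p : Pt r s) : mT^[5 ^ (r + s)] p = p := by
  rw [mT_iter hTrm]
  have h1 : (((5 ^ (r + s) : ℕ) : ℤ) : ZMod (5 ^ r)) = 0 := by
    rw [Int.cast_natCast, ZMod.natCast_eq_zero_iff]
    exact pow_dvd_pow 5 (Nat.le_add_right r s)
  have h2 : (((5 ^ (r + s) : ℕ) : ℤ) : ZMod (5 ^ s)) = 0 := by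
    rw [Int.cast_natCast, ZMod.natCast_eq_zero_iff]
    exact pow_dvd_pow 5 (Nat.le_add_left s r)
  have e1 : ((1 : ZMod (5 ^ r)))⁻¹ = 1 := ZMod.inv_eq_of_mul_eq_one _ _ _ (by ring)
  have e2 : ((1 : ZMod (5 ^ s)))⁻¹ = 1 := ZMod.inv_eq_of_mul_eq_one _ _ _ (by ring)
  unfold mu tr5
  rw [h1, h2]
  simp [e1, e2]

/-- The operator `∑_{i < h} (-1)^i T^i`. -/
private def sT {r s : ℕ} {R : Type} [CommRing R] (G : Pt r s → R) (p : Pt r s) : R :=
  ∑ i ∈ Finset.range (5 ^ (r + s)), (-1) ^ i * G (mT^[i] p)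

private theorem odd_h (n : ℕ) : Odd (5 ^ n) := Odd.pow (by decide)

private theorem sT_add (hTrm : S5Trm) {r s : ℕ} {R : Type} [CommRing R] (G : Pt r s → R)
    (p : Pt r s) : sT G p + sT G (mT p) = 2 * G p := by
  unfold sT
  rw [← Finset.sum_add_distrib]
  have h1 : ∀ i ∈ Finset.range (5 ^ (r + s)),
      (-1 : R) ^ i * G (mT^[i] p) + (-1) ^ i * G (mT^[i] (mT p)) =
        (-1 : R) ^ i * G (mT^[i] p) - (-1) ^ (i + 1) * G (mT^[i + 1] p) := by
    intro i _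
    rw [Function.iterate_succ_apply, pow_succ]
    ring
  rw [Finset.sum_congr rfl h1, Finset.sum_range_sub' (fun i => (-1 : R) ^ i * G (mT^[i] p)),
    mT_per hTrm, (odd_h _).neg_one_pow]
  simp
  ring

private theorem inj_T (hTrm : S5Trm) {r s : ℕ} (D : Pt r s → ZMod 5)
    (hD : ∀ p, D p + D (mT p) = 0) (p : Pt r s) : D p = 0 := by
  have h1 : ∀ (i : ℕ), D (mT^[i] p) = (-1) ^ i * D p := by
    intro i
    induction i with
    | zero => simp
    | succ i ih =>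
      rw [Function.iterate_succ_apply', pow_succ]
      have := hD (mT^[i] p)
      rw [ih] at this
      linear_combination this
  have h2 := h1 (5 ^ (r + s))
  rw [mT_per hTrm, (odd_h _).neg_one_pow] at h2
  have h5 : (5 : ZMod 5) = 0 := by decide
  linear_combination 3 * h2 - D p * h5

theorem hLifp (hm : S5Trm) : TLifp := by
  intro r s f hf
  obtain ⟨hf1, hf2⟩ := hf
  let kf : Pt r s → ZMod 5 := fun p => f 0 p.1 p.2 + f 0 (mT p).1 (mT p).2 - f 1 p.1 p.2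
  let A : Pt r s → ℤ := fun p => ((-f 1 p.1 p.2).val : ℤ)
  let B : Pt r s → ℤ := fun p => ((-kf p).val : ℤ)
  have hA : ∀ p, ((A p : ℤ) : ZMod 5) = -f 1 p.1 p.2 := by
    intro p
    show ((((-f 1 p.1 p.2).val : ℤ)) : ZMod 5) = _
    push_cast
    exact ZMod.natCast_zmod_val _
  have hB : ∀ p, ((B p : ℤ) : ZMod 5) = -kf p := by
    intro p
    show ((((-kf p).val : ℤ)) : ZMod 5) = _
    push_cast
    exact ZMod.natCast_zmod_val _
  have h5 : (5 : ZMod 5) = 0 := by decide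
  have q2 : ∀ p : Pt r s, f 1 (m2 p).1 (m2 p).2 = f 1 p.1 p.2 := by
    intro p
    have h := hf1 p.1 p.2
    have h' : f 1 p.1 p.2 - f 1 (m2 p).1 (m2 p).2 = 0 := h
    linear_combination -h'
  have q3 : ∀ p : Pt r s, kf (m3 p) = kf p := by
    intro p
    have h := hf2 p.1 p.2
    have h' : f 0 p.1 p.2 + f 0 (mT p).1 (mT p).2 - f 1 p.1 p.2 -
      (f 0 (m3 p).1 (m3 p).2 + f 0 (mu 3 1 1 2 p).1 (mu 3 1 1 2 p).2 -
        f 1 (m3 p).1 (m3 p).2) = 0 := h
    rw [← mT3 hm p] at h'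
    show f 0 (m3 p).1 (m3 p).2 + f 0 (mT (m3 p)).1 (mT (m3 p)).2 - f 1 (m3 p).1 (m3 p).2 =
      f 0 p.1 p.2 + f 0 (mT p).1 (mT p).2 - f 1 p.1 p.2
    linear_combination -h'
  let G : Pt r s → ℤ := fun p => A p + A (m2 p) + (B p + B (m3 p))
  have hG : ∀ p, sT G p + sT G (mT p) = 2 * (A p + A (m2 p) + (B p + B (m3 p))) :=
    fun p => sT_add hm G p
  have hmod : ∀ p, ((sT G p : ℤ) : ZMod 5) = f 0 p.1 p.2 := by
    intro p
    have := inj_T hm (fun p => ((sT G p : ℤ) : ZMod 5) - f 0 p.1 p.2) (fun p => by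
      have h1 : ((sT G p : ℤ) : ZMod 5) + ((sT G (mT p) : ℤ) : ZMod 5) =
          2 * (-f 1 p.1 p.2 + -f 1 (m2 p).1 (m2 p).2 + (-kf p + -kf (m3 p))) := by
        rw [← hA, ← hA, ← hB, ← hB]
        exact_mod_cast congrArg (fun z : ℤ => (z : ZMod 5)) (hG p)
      rw [q2, q3] at h1
      have h2 : kf p = f 0 p.1 p.2 + f 0 (mT p).1 (mT p).2 - f 1 p.1 p.2 := rfl
      rw [h2] at h1
      show ((sT G p : ℤ) : ZMod 5) - f 0 p.1 p.2 +
        (((sT G (mT p) : ℤ) : ZMod 5) - f 0 (mT p).1 (mT p).2) = 0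
      linear_combination h1 - (f 0 p.1 p.2 + f 0 (mT p).1 (mT p).2) * h5) p
    have h2 : ((sT G p : ℤ) : ZMod 5) - f 0 p.1 p.2 = 0 := this
    linear_combination h2
  refine ⟨![fun x y => sT G (x, y), fun x y => 2 * (A (x, y) + A (m2 (x, y)))], ⟨?_, ?_⟩, ?_⟩
  · intro x y
    show 2 * (A (x, y) + A (m2 (x, y))) - 2 * (A (m2 (x, y)) + A (m2 (m2 (x, y)))) = 0
    rw [m22 hm]
    ring
  · intro x y
    have h1 := hG (x, y)
    have h2 := hG (m3 (x, y))
    show sT G (x, y) + sT G (mT (x, y)) - 2 * (A (x, y) + A (m2 (x, y))) -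
      (sT G (m3 (x, y)) + sT G (mu 3 1 1 2 (x, y)) -
        2 * (A (m3 (x, y)) + A (m2 (m3 (x, y))))) = 0
    rw [m33 hm] at h2
    rw [← mT3 hm]
    linear_combination h1 - h2
  · intro i x y
    fin_cases i
    · exact hmod (x, y)
    · show ((2 * (A (x, y) + A (m2 (x, y))) : ℤ) : ZMod 5) = f 1 x y
      push_cast
      rw [hA, hA, q2]
      show 2 * (-f 1 x y + -f 1 x y) = f 1 x y
      linear_combination (-f 1 x y) * h5

end Pool.Agent.Helper83.TL.LifpM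

namespace Pool.Agent.Helper83.TL

open Pool.Agent.Helper14.W5 (S5Trm)
open Pool.Agent.Helper4.TL (TLifp)

theorem hLifp (ht : S5Trm) : TLifp := LifpM.hLifp ht

end Pool.Agent.Helper83.TL
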